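import Pool.Agent.FGE.StE
import Pool.Agent.RSF.Stmts4

/-!
# Random homomorphisms of oriented genus 1 and non-oriented genus 2 groups to `PSL_n(q)`: statements

MP_5b5212_al. Sharpening of `RSF.MainGB` (all `q`): subgroups of index at least `q ^ (θ n²)` are avoided as
soon as `θ d > ∑ 1/m_i` (all generators are used, not only the elliptic ones), so `θ < 1/2` is possible
unless all periods are `2`; and the geometric subgroups (`FGE.Geo`) are avoided if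
`m_i (n, q - 1)` divides `q - 1`.
-/

namespace FG2

open RSF FL0 FGE

noncomputable section

/-- **LB**. `RSF.S_LG`, `JJ ≥ |G|^d q^(-(d-σ) n² - C)` (`FL0.LOW_aux.JJ_ge`), `|G| ≥ q^(n² - 4)`
(`FL0.LOW_aux.PS_ge`), `gx n ≤ n` (`RSF.S_ST`). -/
def S_LB : Prop :=
  ∀ m : List ℕ, m ≠ [] → (∀ k ∈ m, 2 ≤ k) → ∀ κ : ℝ, 0 < κ → ∃ r : ℕ, ∀ n, r ≤ n →
    ∀ (F : Type) [Field F] [Finite F],
      (Nat.card F : ℝ) ^ ((1 + sig m - κ) * (n : ℝ) ^ 2) ≤ Nat.card (OGroup 1 m →* PS n F) ∧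
      (Nat.card F : ℝ) ^ ((1 + sig m - κ) * (n : ℝ) ^ 2) ≤ Nat.card (NGroup 2 m →* PS n F)

def M_LB : Prop := S_HO → S_HN → S_LG → S_ST → S_PI → S_PJ → S_LB

/-- **SM2**. The number of the `ρ` with `InConj ρ.range M` is at most `M.index * |M|^(d+1)` (the coset of `g`; the first
elliptic generator is determined by the others) `≤ |G|^(d+1) q^(-θ d n²)`. Divide by `S_LB`, `κ = η = (θ d - (d - σ)) / 3`. -/
def S_SM2 : Prop :=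
  ∀ m : List ℕ, m ≠ [] → (∀ k ∈ m, 2 ≤ k) → ∀ θ : ℝ, (m.length - sig m) < θ * m.length →
    ∃ (η : ℝ) (r : ℕ), 0 < η ∧ ∀ n, r ≤ n → ∀ (F : Type) [Field F] [Finite F],
    ∀ S : Set (Subgroup (PS n F)), (S.ncard : ℝ) ≤ (Nat.card F : ℝ) ^ (η * (n : ℝ) ^ 2) →
      (∀ M ∈ S, (Nat.card F : ℝ) ^ (θ * (n : ℝ) ^ 2) ≤ M.index) →
      prob (OGroup 1 m) (PS n F) (fun ρ => ∃ M ∈ S, InConj ρ.range M) ≤
        (Nat.card F : ℝ) ^ (-(n : ℝ)) ∧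
      prob (NGroup 2 m) (PS n F) (fun ρ => ∃ M ∈ S, InConj ρ.range M) ≤
        (Nat.card F : ℝ) ^ (-(n : ℝ))

def M_SM2 : Prop := S_H2 → S_LB → S_SM2

/-- **PR2**, `FGE.S_PRO` for these groups. For one `T`: the number of the `ρ` with `All ρ.range (Q T)` is at most the
number of `(t, a, b)`, `t j ^ m_j = 1` with the relation (`RSF.S_H2`), all whose preimages satisfy `Q T`; `t i` is determined
by the others. The number of the possible `t j` is at most that of the `y ∈ GL_n`, `y^k = 1`, `Q T y` (as in `FGE.PRO`), of the `a` and of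
the `b` at most that of the `y ∈ GL_n` with `Q T y` (all preimages of `a` are such `y`). Divide by `S_LB`: the exponent is
`((1-μ) + μ (σ - 1 + 1/m_i) + 2 μ - 1 - σ + κ) n² = (κ - (1-μ) σ + μ / m_i) n² ≤ (κ - (σ - 1/m_i) / 2) n²`; take
`κ = (σ - 1/m_i) / 4`. -/
def S_PR2 : Prop :=
  ∀ m : List ℕ, (∀ k ∈ m, 2 ≤ k) → (∃ k ∈ m, 1 / (k : ℝ) < sig m) →
    ∀ C : ℝ, 0 ≤ C → ∃ r : ℕ, ∀ n, r ≤ n → ∀ (F : Type) [Field F] [Finite F],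
    (∀ k ∈ m, k ∣ Nat.card F - 1) → (∀ k ∈ m, Ord n F k) →
    ∀ (I : Type) [Finite I] (Q : I → Matrix (Fin n) (Fin n) F → Prop) (μ : ℝ), 0 ≤ μ → μ ≤ 1 / 2 →
      (∀ T M (c : F), c ≠ 0 → Q T M → Q T (c • M)) →
      (Nat.card I : ℝ) ≤ Bd C n F ((1 - μ) * (n : ℝ) ^ 2) →
      (∀ T, ∀ k ∈ m, (Nat.card {y : GL (Fin n) F // y ^ k = 1 ∧ Q T y.1} : ℝ) ≤
        Bd C n F (μ * (1 - 1 / (k : ℝ)) * (n : ℝ) ^ 2)) →
      (∀ T, (Nat.card {y : GL (Fin n) F // Q T y.1} : ℝ) ≤ Bd C n F (μ * (n : ℝ) ^ 2)) →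
      prob (OGroup 1 m) (PS n F) (fun ρ => ∃ T, All ρ.range (Q T)) ≤
        (Nat.card F : ℝ) ^ (-(2 * (n : ℝ))) ∧
      prob (NGroup 2 m) (PS n F) (fun ρ => ∃ T, All ρ.range (Q T)) ≤
        (Nat.card F : ℝ) ^ (-(2 * (n : ℝ)))

def M_PR2 : Prop := S_H2 → FL0.S_ROT → S_LB → S_PR2

/-- **GE2**, as `FGE.GE1`, with `S_PR2`. -/
def S_GE2 : Prop :=
  ∀ m : List ℕ, (∀ k ∈ m, 2 ≤ k) → (∃ k ∈ m, 1 / (k : ℝ) < sig m) →
    ∃ r : ℕ, ∀ n, r ≤ n → ∀ (F : Type) [Field F] [Finite F], (∀ k ∈ m, k ∣ Nat.card F - 1) →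
    (∀ k ∈ m, Ord n F k) →
      prob (OGroup 1 m) (PS n F) (fun ρ => Irr ρ.range ∧ Geo ρ.range) ≤
        (Nat.card F : ℝ) ^ (-((n : ℝ) / 2)) ∧
      prob (NGroup 2 m) (PS n F) (fun ρ => Irr ρ.range ∧ Geo ρ.range) ≤
        (Nat.card F : ℝ) ^ (-((n : ℝ) / 2))

def M_GE2 : Prop := S_PR2 → S_C2R → S_C2N → S_C2Y → S_C2S → S_C3R → S_C3N → S_C3Y → S_C3S →
  S_C4N → S_C4Y → S_C4S → S_C5N → S_C5Y → S_C5S → S_C8R → S_C8N → S_C8Y → S_C8S → S_GE2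

/-- The theorem. -/
def Main : Prop :=
  ∀ m : List ℕ, (∀ k ∈ m, 2 ≤ k) → 1 < sig m → ∀ θ : ℝ,
    (m.length - sig m) < θ * m.length →
    ∃ (η : ℝ) (r : ℕ), 0 < η ∧ ∀ ε : ℝ, 0 < ε → ∃ N : ℕ, ∀ n, r ≤ n →
    ∀ (F : Type) [Field F] [Finite F], N ≤ Nat.card (PS n F) →
    ∀ S : Set (Subgroup (PS n F)), (S.ncard : ℝ) ≤ (Nat.card F : ℝ) ^ (η * (n : ℝ) ^ 2) →
      (∀ M ∈ S, (Nat.card F : ℝ) ^ (θ * (n : ℝ) ^ 2) ≤ M.index) →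
      1 - ε ≤ prob (OGroup 1 m) (PS n F) (fun ρ => Irr ρ.range ∧
        (∀ M ∈ S, ¬ InConj ρ.range M) ∧
        ((∀ k ∈ m, k * Nat.gcd n (Nat.card F - 1) ∣ Nat.card F - 1) → ¬ Geo ρ.range)) ∧
      1 - ε ≤ prob (NGroup 2 m) (PS n F) (fun ρ => Irr ρ.range ∧
        (∀ M ∈ S, ¬ InConj ρ.range M) ∧
        ((∀ k ∈ m, k * Nat.gcd n (Nat.card F - 1) ∣ Nat.card F - 1) → ¬ Geo ρ.range))

/-- Sum of the probabilities; `q^(-n/2) ≤ ε / 3` and `q^(-n) ≤ ε / 3` for `|PSL_n(q)| ≥ N`: `RSF.S_AS`. -/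
def M_Main : Prop := RSF.MainG → RSF.S_AS → S_SM2 → S_GE2 → Main

end

end FG2
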