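import Pool.Agent.FG2.StF
import Pool.Agent.RSF.E
import Pool.Agent.RSF.B

/-!
# Module `MAIN`: the theorem for oriented genus 1 and non-oriented genus 2
-/

set_option autoImplicit false

open RSF

namespace FG2

open FL0 FGE

/-- the union bound -/
theorem main_prob3 {Γ G : Type} [Group Γ] [Group G] [Finite (Γ →* G)] (P Q R : (Γ →* G) → Prop) :
    prob Γ G P - (prob Γ G Q + prob Γ G (fun ρ => P ρ ∧ R ρ)) ≤
      prob Γ G (fun ρ => P ρ ∧ ¬ Q ρ ∧ ¬ R ρ) := by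
  unfold prob
  have key : Nat.card {ρ : Γ →* G // P ρ} ≤ Nat.card {ρ : Γ →* G // P ρ ∧ ¬ Q ρ ∧ ¬ R ρ} +
      (Nat.card {ρ : Γ →* G // Q ρ} + Nat.card {ρ : Γ →* G // P ρ ∧ R ρ}) := by
    classical
    rw [← Nat.card_sum, ← Nat.card_sum]
    refine Nat.card_le_card_of_injective (fun ρ : {ρ : Γ →* G // P ρ} =>
      if h2 : Q ρ.1 then Sum.inr (Sum.inl ⟨ρ.1, h2⟩)
      else if h3 : R ρ.1 then Sum.inr (Sum.inr ⟨ρ.1, ρ.2, h3⟩)
      else Sum.inl ⟨ρ.1, ρ.2, h2, h3⟩) ?_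
    intro ρ ρ' h
    simp only at h
    apply Subtype.ext
    split_ifs at h <;> simp_all
  have key' : (Nat.card {ρ : Γ →* G // P ρ} : ℝ) ≤
      Nat.card {ρ : Γ →* G // P ρ ∧ ¬ Q ρ ∧ ¬ R ρ} +
      (Nat.card {ρ : Γ →* G // Q ρ} + Nat.card {ρ : Γ →* G // P ρ ∧ R ρ}) := by exact_mod_cast key
  rw [← add_div, ← sub_div]
  exact div_le_div_of_nonneg_right (by linarith) (Nat.cast_nonneg _)

/-- the last step -/
theorem main_last {Γ G : Type} [Group Γ] [Group G] [Finite (Γ →* G)] (I : (Γ →* G) → Prop)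
    {ι : Type} (S : Set ι) (J : (Γ →* G) → ι → Prop) (O : Prop) (Ge : (Γ →* G) → Prop) (ε : ℝ)
    (hε : 0 ≤ ε) (h1 : 1 - ε / 3 ≤ prob Γ G I)
    (h2 : prob Γ G (fun ρ => ∃ M ∈ S, J ρ M) ≤ ε / 3)
    (h3 : O → prob Γ G (fun ρ => I ρ ∧ Ge ρ) ≤ ε / 3) :
    1 - ε ≤ prob Γ G (fun ρ => I ρ ∧ (∀ M ∈ S, ¬ J ρ M) ∧ (O → ¬ Ge ρ)) := by
  have h4 := main_prob3 I (fun ρ => ∃ M ∈ S, J ρ M) (fun ρ => O ∧ Ge ρ)
  have h5 : prob Γ G (fun ρ => I ρ ∧ (O ∧ Ge ρ)) ≤ ε / 3 := by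
    by_cases hO : O
    · have h6 : (fun ρ : Γ →* G => I ρ ∧ (O ∧ Ge ρ)) = fun ρ => I ρ ∧ Ge ρ := by
        funext ρ
        simp [hO]
      rw [h6]
      exact h3 hO
    · have h6 : (fun ρ : Γ →* G => I ρ ∧ (O ∧ Ge ρ)) = fun _ => False := by
        funext ρ
        simp [hO]
      rw [h6]
      unfold prob
      have h7 : Nat.card {ρ : Γ →* G // False} = 0 := by
        have : IsEmpty {ρ : Γ →* G // False} := ⟨fun x => x.2⟩
        exact Nat.card_of_isEmpty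
      rw [h7, Nat.cast_zero, zero_div]
      linarith
  have h8 : (fun ρ : Γ →* G => I ρ ∧ (∀ M ∈ S, ¬ J ρ M) ∧ (O → ¬ Ge ρ)) =
      fun ρ => I ρ ∧ ¬ (∃ M ∈ S, J ρ M) ∧ ¬ (O ∧ Ge ρ) := by
    funext ρ
    simp only [not_exists, not_and]
  rw [h8]
  linarith

theorem t_Main : M_Main := by
  intro hG hAS hSM hGE m hm hσ θ hθ
  have hne : m ≠ [] := by
    rintro rfl
    unfold sig at hσ
    simp at hσ
    linarith
  have hk : ∃ k ∈ m, 1 / (k : ℝ) < sig m := by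
    obtain ⟨k, hk⟩ := List.exists_mem_of_ne_nil m hne
    refine ⟨k, hk, ?_⟩
    have h2 : (2 : ℝ) ≤ k := by exact_mod_cast hm k hk
    have h3 : 1 / (k : ℝ) ≤ 1 := by
      rw [div_le_one (by linarith)]
      linarith
    linarith
  obtain ⟨r1, H1⟩ := hG m hm hσ
  obtain ⟨η, r2, hη, H2⟩ := hSM m hne hm θ hθ
  obtain ⟨r3, H3⟩ := hGE m hm hk
  obtain ⟨r4, hr4, H4⟩ := hAS (1 / 2) 1 (by norm_num) one_pos
  refine ⟨η, max (max r1 r2) (max r3 r4), hη, fun ε hε => ?_⟩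
  obtain ⟨N1, H1'⟩ := H1 (ε / 3) (by linarith)
  obtain ⟨N4, H4'⟩ := H4 (ε / 3) (by linarith)
  refine ⟨max N1 N4, fun n hn F _ _ hF S hS hM => ?_⟩
  have hn1 : r1 ≤ n := ((le_max_left _ _).trans (le_max_left _ _)).trans hn
  have hn2 : r2 ≤ n := ((le_max_right _ _).trans (le_max_left _ _)).trans hn
  have hn3 : r3 ≤ n := ((le_max_left _ _).trans (le_max_right _ _)).trans hn
  have hn4 : r4 ≤ n := ((le_max_right _ _).trans (le_max_right _ _)).trans hn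
  obtain ⟨a1, a2⟩ := H1' n hn1 F ((le_max_left _ _).trans hF)
  obtain ⟨b1, b2⟩ := H2 n hn2 F S hS hM
  have hlim := H4' n hn4 F ((le_max_right _ _).trans hF)
  have hq : (2 : ℝ) ≤ (Nat.card F : ℝ) := by
    exact_mod_cast Finite.one_lt_card (α := F)
  have hq0 : (0 : ℝ) < (Nat.card F : ℝ) := by linarith
  have hnr : (0 : ℝ) ≤ n := Nat.cast_nonneg _
  have e1 : (Nat.card F : ℝ) ^ (-((n : ℝ) / 2)) ≤ ε / 3 := by
    refine le_trans ?_ hlim
    rw [one_mul, Real.rpow_one]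
    calc (Nat.card F : ℝ) ^ (-((n : ℝ) / 2)) ≤ (Nat.card F : ℝ) ^ (1 - 1 / 2 * (n : ℝ)) :=
          Real.rpow_le_rpow_of_exponent_le (by linarith) (by linarith)
      _ = 1 * (Nat.card F : ℝ) ^ (1 - 1 / 2 * (n : ℝ)) := (one_mul _).symm
      _ ≤ ((n : ℝ) + 1) * (Nat.card F : ℝ) ^ (1 - 1 / 2 * (n : ℝ)) :=
          mul_le_mul_of_nonneg_right (by linarith) (by positivity)
  have e2 : (Nat.card F : ℝ) ^ (-(n : ℝ)) ≤ ε / 3 :=
    (Real.rpow_le_rpow_of_exponent_le (by linarith) (by linarith)).trans e1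
  have hdvd : (∀ k ∈ m, k * Nat.gcd n (Nat.card F - 1) ∣ Nat.card F - 1) →
      ∀ k ∈ m, k ∣ Nat.card F - 1 := fun hord k hk => (Dvd.intro _ rfl).trans (hord k hk)
  have hfin : Finite (PS n F) := RSF.B.fin_ps n F
  have f1 : Finite (OGroup 1 m →* PS n F) := RSF.E.finite_ohom 1 m (PS n F)
  have f2 : Finite (NGroup 2 m →* PS n F) := RSF.E.finite_nhom 2 m (PS n F)
  constructor
  · exact main_last (Γ := OGroup 1 m) (fun ρ => Irr ρ.range) S (fun ρ M => InConj ρ.range M) _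
      (fun ρ => Geo ρ.range) ε hε.le a1 (b1.trans e2)
      (fun hord => ((H3 n hn3 F (hdvd hord) hord).1).trans e1)
  · exact main_last (Γ := NGroup 2 m) (fun ρ => Irr ρ.range) S (fun ρ M => InConj ρ.range M) _
      (fun ρ => Geo ρ.range) ε hε.le a2 (b2.trans e2)
      (fun hord => ((H3 n hn3 F (hdvd hord) hord).2).trans e1)

end FG2
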