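import Pool.Agent.FG2.StF
import Pool.Agent.FL0.LOW

/-!
# Module `LB`: the lower bound for the number of homomorphisms
-/

set_option autoImplicit false

namespace FG2

open RSF FL0

/-- the numerical part -/
theorem lb_num (q : ℝ) (hq : 2 ≤ q) (n g d : ℕ) (s T κ P J H : ℝ) (hP0 : 0 ≤ P) (hg : (g : ℝ) ≤ n)
    (hn1 : 1 ≤ n) (hκn : (4 * (d + 1) + 4 * T + 2) ≤ κ * n) (hT : 0 ≤ T)
    (hP : q ^ ((n : ℝ) ^ 2 - 4) ≤ P) (hJ : P ^ d * q ^ (-((d - s) * (n : ℝ) ^ 2) - 4 * T) ≤ J)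
    (hH : P * J ≤ 2 * q ^ g * H) :
    q ^ ((1 + s - κ) * (n : ℝ) ^ 2) ≤ H := by
  have hq0 : 0 < q := by linarith
  have hq1 : 1 ≤ q := by linarith
  have h1 : (q ^ ((n : ℝ) ^ 2 - 4)) ^ (d + 1) * q ^ (-((d - s) * (n : ℝ) ^ 2) - 4 * T) ≤ P * J := by
    calc (q ^ ((n : ℝ) ^ 2 - 4)) ^ (d + 1) * q ^ (-((d - s) * (n : ℝ) ^ 2) - 4 * T)
        ≤ P ^ (d + 1) * q ^ (-((d - s) * (n : ℝ) ^ 2) - 4 * T) :=
          mul_le_mul_of_nonneg_right (pow_le_pow_left₀ (by positivity) hP _) (by positivity)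
      _ = P * (P ^ d * q ^ (-((d - s) * (n : ℝ) ^ 2) - 4 * T)) := by ring
      _ ≤ P * J := mul_le_mul_of_nonneg_left hJ hP0
  have h2 : (q ^ ((n : ℝ) ^ 2 - 4)) ^ (d + 1) = q ^ (((n : ℝ) ^ 2 - 4) * (d + 1)) := by
    rw [← Real.rpow_natCast, ← Real.rpow_mul hq0.le]
    push_cast
    rfl
  rw [h2, ← Real.rpow_add hq0] at h1
  have h3 : (2 : ℝ) * q ^ g ≤ q ^ (1 + (n : ℝ)) := by
    rw [Real.rpow_add hq0, Real.rpow_one]
    have h4 : q ^ g ≤ q ^ (n : ℝ) := by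
      rw [← Real.rpow_natCast]
      exact Real.rpow_le_rpow_of_exponent_le hq1 hg
    exact mul_le_mul hq h4 (by positivity) (by linarith)
  have hH0 : 0 ≤ H := by
    by_contra hneg
    push Not at hneg
    have h5 : 2 * q ^ g * H < 0 := mul_neg_of_pos_of_neg (by positivity) hneg
    have h6 : 0 < q ^ (((n : ℝ) ^ 2 - 4) * (d + 1) + (-((d - s) * (n : ℝ) ^ 2) - 4 * T)) := by
      positivity
    linarith
  have h7 : q ^ (((n : ℝ) ^ 2 - 4) * (d + 1) + (-((d - s) * (n : ℝ) ^ 2) - 4 * T)) ≤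
      q ^ (1 + (n : ℝ)) * H :=
    h1.trans (hH.trans (mul_le_mul_of_nonneg_right h3 hH0))
  have h8 : q ^ (1 + (n : ℝ)) * q ^ ((1 + s - κ) * (n : ℝ) ^ 2) ≤
      q ^ (((n : ℝ) ^ 2 - 4) * (d + 1) + (-((d - s) * (n : ℝ) ^ 2) - 4 * T)) := by
    rw [← Real.rpow_add hq0]
    apply Real.rpow_le_rpow_of_exponent_le hq1
    have hnr : (1 : ℝ) ≤ n := by exact_mod_cast hn1
    have h9 : (4 * (d + 1) + 4 * T + 2) * n ≤ κ * n * n := mul_le_mul_of_nonneg_right hκn (by linarith)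
    have h10 : (4 * ((d : ℝ) + 1) + 4 * T + 1) ≤ (4 * (d + 1) + 4 * T + 1) * n :=
      le_mul_of_one_le_right (by positivity) hnr
    nlinarith
  have h11 : q ^ (1 + (n : ℝ)) * q ^ ((1 + s - κ) * (n : ℝ) ^ 2) ≤ q ^ (1 + (n : ℝ)) * H := h8.trans h7
  exact le_of_mul_le_mul_left h11 (by positivity)

theorem t_LB : M_LB := by
  intro hHO hHN hLG hST hPI hPJ m hne hm κ hκ
  obtain ⟨r1, h1⟩ := hLG m hne hm
  obtain ⟨r2, h2⟩ := hST 1 one_pos
  obtain ⟨T, hT⟩ : ∃ T : ℝ, T = (m.map fun k : ℕ => (k : ℝ) ^ 2).sum := ⟨_, rfl⟩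
  have hT0 : 0 ≤ T := by
    rw [hT]
    refine List.sum_nonneg fun x hx => ?_
    obtain ⟨k, -, rfl⟩ := List.mem_map.1 hx
    positivity
  obtain ⟨r3, hr3⟩ := exists_nat_ge ((4 * ((m.length : ℝ) + 1) + 4 * T + 2) / κ)
  refine ⟨max r1 (max r2 (max r3 1)), fun n hn F _ _ => ?_⟩
  have hn1 : r1 ≤ n := (le_max_left _ _).trans hn
  have hn2 : r2 ≤ n := (le_max_left _ _).trans ((le_max_right _ _).trans hn)
  have hn3 : r3 ≤ n := (le_max_left _ _).trans ((le_max_right _ _).trans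
    ((le_max_right _ _).trans hn))
  have hn4 : 1 ≤ n := (le_max_right _ _).trans ((le_max_right _ _).trans
    ((le_max_right _ _).trans hn))
  have hq : (2 : ℝ) ≤ (Nat.card F : ℝ) := by
    exact_mod_cast Finite.one_lt_card (α := F)
  obtain ⟨h3, h4⟩ := h1 n hn1 F
  have hg : ((gx n : ℕ) : ℝ) ≤ n := by simpa using h2 n hn2
  have hκn : (4 * ((m.length : ℝ) + 1) + 4 * T + 2) ≤ κ * n := by
    have h5 : (4 * ((m.length : ℝ) + 1) + 4 * T + 2) / κ ≤ n := hr3.trans (by exact_mod_cast hn3)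
    rw [div_le_iff₀ hκ] at h5
    linarith
  have hJ := LOW_aux.JJ_ge hPJ n F m fun k hk => le_trans (by norm_num) (hm k hk)
  rw [← hT] at hJ
  have hP := LOW_aux.PS_ge hPI n F
  have hO : Nat.card (OGroup 1 m →* PS n F) = OT (PS n F) m (fun _ => True) := by
    rw [← hHO (PS n F) m (fun _ => True)]
    exact Nat.card_congr (Equiv.subtypeUnivEquiv fun _ => trivial).symm
  have hN : Nat.card (NGroup 2 m →* PS n F) = NT (PS n F) m (fun _ => True) := by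
    rw [← hHN (PS n F) m (fun _ => True)]
    exact Nat.card_congr (Equiv.subtypeUnivEquiv fun _ => trivial).symm
  rw [← hO] at h3
  rw [← hN] at h4
  have h3' : (Nat.card (PS n F) : ℝ) * JJ (PS n F) m ≤
      2 * (Nat.card F : ℝ) ^ gx n * Nat.card (OGroup 1 m →* PS n F) := by exact_mod_cast h3
  have h4' : (Nat.card (PS n F) : ℝ) * JJ (PS n F) m ≤
      2 * (Nat.card F : ℝ) ^ gx n * Nat.card (NGroup 2 m →* PS n F) := by exact_mod_cast h4
  exact ⟨lb_num _ hq n (gx n) m.length (sig m) T κ _ _ _ (Nat.cast_nonneg _) hg hn4 hκn hT0 hP hJ h3',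
    lb_num _ hq n (gx n) m.length (sig m) T κ _ _ _ (Nat.cast_nonneg _) hg hn4 hκn hT0 hP hJ h4'⟩

end FG2
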