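import Pool.Agent.FG2.StF
import Pool.Agent.FL0.FIII
import Pool.Agent.RSF.B
import Pool.Agent.RSF.E

/-!
# Module `SM2`: subgroups of large index
-/

set_option autoImplicit false

open RSF

namespace FG2

open FL0

/-- tuples and two further elements in a conjugate of `M`, with one relation -/
theorem sm2_card_conj {G : Type} [Group G] [Finite G] (w : G → G → G) (M : Subgroup G) (e : ℕ) :
    Nat.card {t : (Fin (e + 1) → G) × G × G // (List.ofFn t.1).prod * w t.2.1 t.2.2 = 1 ∧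
        ∃ g : G, (∀ j, g⁻¹ * t.1 j * g ∈ M) ∧ g⁻¹ * t.2.1 * g ∈ M ∧ g⁻¹ * t.2.2 * g ∈ M} ≤
      M.index * Nat.card M ^ (e + 2) := by
  classical
  have cj : ∀ (g x : G), g⁻¹ * x * g ∈ M →
      (Quotient.out (g : G ⧸ M))⁻¹ * x * (Quotient.out (g : G ⧸ M)) ∈ M := by
    intro g x hx
    obtain ⟨h, hh⟩ := QuotientGroup.mk_out_eq_mul M g
    rw [hh]
    have h1 : (g * (h : G))⁻¹ * x * (g * (h : G)) = (h : G)⁻¹ * (g⁻¹ * x * g) * (h : G) := by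
      group
    rw [h1]
    exact M.mul_mem (M.mul_mem (M.inv_mem h.2) hx) h.2
  have key : ∀ t : {t : (Fin (e + 1) → G) × G × G // (List.ofFn t.1).prod * w t.2.1 t.2.2 = 1 ∧
        ∃ g : G, (∀ j, g⁻¹ * t.1 j * g ∈ M) ∧ g⁻¹ * t.2.1 * g ∈ M ∧ g⁻¹ * t.2.2 * g ∈ M},
      ∃ c : G ⧸ M, (∀ j, c.out⁻¹ * t.1.1 j * c.out ∈ M) ∧ c.out⁻¹ * t.1.2.1 * c.out ∈ M ∧
        c.out⁻¹ * t.1.2.2 * c.out ∈ M := by
    rintro ⟨t, ht, g, hg, hg2, hg3⟩
    exact ⟨(g : G ⧸ M), fun j => cj g _ (hg j), cj g _ hg2, cj g _ hg3⟩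
  choose c hc using key
  have h1 : Nat.card {t : (Fin (e + 1) → G) × G × G //
        (List.ofFn t.1).prod * w t.2.1 t.2.2 = 1 ∧
        ∃ g : G, (∀ j, g⁻¹ * t.1 j * g ∈ M) ∧ g⁻¹ * t.2.1 * g ∈ M ∧ g⁻¹ * t.2.2 * g ∈ M} ≤
      Nat.card ((G ⧸ M) × ((Fin e → M) × M × M)) := by
    refine Nat.card_le_card_of_injective
      (fun t => (c t, (fun j => (⟨(c t).out⁻¹ * t.1.1 j.succ * (c t).out, (hc t).1 j.succ⟩ : M)),
        ⟨(c t).out⁻¹ * t.1.2.1 * (c t).out, (hc t).2.1⟩,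
        ⟨(c t).out⁻¹ * t.1.2.2 * (c t).out, (hc t).2.2⟩)) ?_
    intro t t' h
    simp only [Prod.mk.injEq] at h
    obtain ⟨h2, h3, h3', h3''⟩ := h
    have h6 : ∀ j : Fin e, t.1.1 j.succ = t'.1.1 j.succ := by
      intro j
      have h4 := congrArg Subtype.val (congrFun h3 j)
      simp only at h4
      rw [h2] at h4
      have h5 := mul_right_cancel h4
      exact mul_left_cancel h5
    have h6' : t.1.2.1 = t'.1.2.1 := by
      have h4 := congrArg Subtype.val h3'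
      simp only at h4
      rw [h2] at h4
      have h5 := mul_right_cancel h4
      exact mul_left_cancel h5
    have h6'' : t.1.2.2 = t'.1.2.2 := by
      have h4 := congrArg Subtype.val h3''
      simp only at h4
      rw [h2] at h4
      have h5 := mul_right_cancel h4
      exact mul_left_cancel h5
    have h7 := t.2.1
    have h8 := t'.2.1
    rw [List.ofFn_succ, List.prod_cons] at h7 h8
    have h9 : (fun i : Fin e => t.1.1 i.succ) = fun i : Fin e => t'.1.1 i.succ := funext h6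
    rw [h9, h6', h6'', mul_assoc] at h7
    rw [mul_assoc] at h8
    have h10 : t.1.1 0 = t'.1.1 0 := mul_right_cancel (h7.trans h8.symm)
    apply Subtype.ext
    refine Prod.ext ?_ (Prod.ext h6' h6'')
    funext j
    refine Fin.cases h10 h6 j
  refine h1.trans (le_of_eq ?_)
  rw [Nat.card_prod, Nat.card_prod, Nat.card_prod, Nat.card_fun, Nat.card_fin, Subgroup.index,
    pow_add, pow_two]

/-- one subgroup -/
theorem sm2_one_sub {G : Type} [Group G] [Finite G] (w : G → G → G) (M : Subgroup G) (e : ℕ)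
    (Q Y : ℝ) (hQ : 0 < Q) (hQM : Q ≤ M.index) (hY : (Nat.card G : ℝ) ≤ Y) :
    (Nat.card {t : (Fin (e + 1) → G) × G × G // (List.ofFn t.1).prod * w t.2.1 t.2.2 = 1 ∧
        ∃ g : G, (∀ j, g⁻¹ * t.1 j * g ∈ M) ∧ g⁻¹ * t.2.1 * g ∈ M ∧ g⁻¹ * t.2.2 * g ∈ M} : ℝ) ≤
      Y ^ (e + 2) / Q ^ (e + 1) := by
  have h4 : (Nat.card {t : (Fin (e + 1) → G) × G × G //
      (List.ofFn t.1).prod * w t.2.1 t.2.2 = 1 ∧
        ∃ g : G, (∀ j, g⁻¹ * t.1 j * g ∈ M) ∧ g⁻¹ * t.2.1 * g ∈ M ∧ g⁻¹ * t.2.2 * g ∈ M} : ℝ) ≤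
      M.index * (Nat.card M : ℝ) ^ (e + 2) := by
    exact_mod_cast sm2_card_conj w M e
  have hG : (0 : ℝ) < Nat.card G := by exact_mod_cast Nat.card_pos
  have h5 : (M.index : ℝ) * Nat.card M = Nat.card G := by
    have := M.card_mul_index
    rw [mul_comm] at this
    exact_mod_cast this
  have h6 : (Nat.card M : ℝ) * Q ≤ Nat.card G := by
    rw [← h5, mul_comm]
    exact mul_le_mul_of_nonneg_right hQM (Nat.cast_nonneg _)
  refine h4.trans ?_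
  rw [le_div_iff₀ (pow_pos hQ _)]
  calc (M.index : ℝ) * (Nat.card M : ℝ) ^ (e + 2) * Q ^ (e + 1)
      = ((M.index : ℝ) * Nat.card M) * ((Nat.card M : ℝ) * Q) ^ (e + 1) := by
        rw [mul_pow]; ring
    _ ≤ (Nat.card G : ℝ) * (Nat.card G : ℝ) ^ (e + 1) := by
        rw [h5]
        exact mul_le_mul_of_nonneg_left (pow_le_pow_left₀ (by positivity) h6 _) hG.le
    _ = (Nat.card G : ℝ) ^ (e + 2) := by ring
    _ ≤ Y ^ (e + 2) := pow_le_pow_left₀ hG.le hY _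

/-- the numerator -/
theorem sm2_num {n : ℕ} {F : Type} [Field F] [Finite F] (w : PS n F → PS n F → PS n F) (d e : ℕ)
    (he : d = e + 1) (θ η q : ℝ) (hq : q = Nat.card F) (S : Set (Subgroup (PS n F)))
    (hS : (S.ncard : ℝ) ≤ q ^ (η * (n : ℝ) ^ 2))
    (hM : ∀ M ∈ S, q ^ (θ * (n : ℝ) ^ 2) ≤ (M.index : ℝ)) (X : Type)
    (hX : Nat.card X ≤ Nat.card {t : (Fin d → PS n F) × PS n F × PS n F // ∃ M ∈ S,
          (List.ofFn t.1).prod * w t.2.1 t.2.2 = 1 ∧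
            ∃ g : PS n F, (∀ j, g⁻¹ * t.1 j * g ∈ M) ∧ g⁻¹ * t.2.1 * g ∈ M ∧
              g⁻¹ * t.2.2 * g ∈ M}) :
    (Nat.card X : ℝ) ≤ q ^ (η * (n : ℝ) ^ 2 + ((n : ℝ) ^ 2 * (d + 1) - θ * (n : ℝ) ^ 2 * d)) := by
  subst he
  have hfin : Finite (PS n F) := RSF.B.fin_ps n F
  have hPS := FL0.FIII.card_PS_le n F
  rw [← hq] at hPS
  have hq1 : 1 < q := by
    rw [hq]
    exact_mod_cast Finite.one_lt_card
  have hq0 : 0 < q := by linarith
  have h3 := FL0.FIII.card_un S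
    (fun (M : Subgroup (PS n F)) (t : (Fin (e + 1) → PS n F) × PS n F × PS n F) =>
      (List.ofFn t.1).prod * w t.2.1 t.2.2 = 1 ∧
        ∃ g : PS n F, (∀ j, g⁻¹ * t.1 j * g ∈ M) ∧ g⁻¹ * t.2.1 * g ∈ M ∧ g⁻¹ * t.2.2 * g ∈ M)
    ((q ^ ((n : ℝ) ^ 2)) ^ (e + 2) / (q ^ (θ * (n : ℝ) ^ 2)) ^ (e + 1)) (by
      intro M hMS
      exact sm2_one_sub w M e _ _ (Real.rpow_pos_of_pos hq0 _) (hM M hMS) hPS)
  have h4 : (Nat.card X : ℝ) ≤ q ^ (η * (n : ℝ) ^ 2) *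
      ((q ^ ((n : ℝ) ^ 2)) ^ (e + 2) / (q ^ (θ * (n : ℝ) ^ 2)) ^ (e + 1)) := by
    refine le_trans (by exact_mod_cast hX) (h3.trans ?_)
    exact mul_le_mul_of_nonneg_right hS (by positivity)
  refine h4.trans (le_of_eq ?_)
  obtain ⟨N2, hN2⟩ : ∃ N2 : ℝ, N2 = (n : ℝ) ^ 2 := ⟨_, rfl⟩
  rw [← hN2]
  have a1 : (q ^ N2) ^ (e + 2) = q ^ (N2 * ((e + 1 : ℕ) + 1)) := by
    rw [← Real.rpow_natCast, ← Real.rpow_mul hq0.le]
    push_cast
    ring_nf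
  have a2 : (q ^ (θ * N2)) ^ (e + 1) = q ^ (θ * N2 * (e + 1 : ℕ)) := by
    rw [← Real.rpow_natCast, ← Real.rpow_mul hq0.le]
  rw [a1, a2, ← Real.rpow_sub hq0, ← Real.rpow_add hq0]

/-- the quotient -/
theorem sm2_quot (q : ℝ) (hq1 : 1 < q) (n d : ℕ) (s θ η A B : ℝ) (hη : η = (θ * d - (d - s)) / 3)
    (hη0 : 0 < η) (hn : 1 ≤ n) (hnη : 1 ≤ η * n)
    (hA : A ≤ q ^ (η * (n : ℝ) ^ 2 + ((n : ℝ) ^ 2 * (d + 1) - θ * (n : ℝ) ^ 2 * d)))
    (hB : q ^ ((1 + s - η) * (n : ℝ) ^ 2) ≤ B) : A / B ≤ q ^ (-(n : ℝ)) := by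
  have hq0 : 0 < q := by linarith
  have hfrac := div_le_div₀ (Real.rpow_nonneg hq0.le _) hA (Real.rpow_pos_of_pos hq0 _) hB
  refine hfrac.trans ?_
  rw [← Real.rpow_sub hq0]
  apply Real.rpow_le_rpow_of_exponent_le hq1.le
  have e1 : η * (n : ℝ) ^ 2 + ((n : ℝ) ^ 2 * (d + 1) - θ * (n : ℝ) ^ 2 * d) -
      (1 + s - η) * (n : ℝ) ^ 2 = -(η * n) * n := by
    have h3 : 3 * η = θ * d - (d - s) := by rw [hη]; ring
    linear_combination ((n : ℝ) ^ 2) * h3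
  rw [e1]
  have hnr : (1 : ℝ) ≤ n := by exact_mod_cast hn
  nlinarith

theorem t_SM2 : M_SM2 := by
  intro hH2 hLB m hne hm θ hθ
  obtain ⟨η, hη⟩ : ∃ η : ℝ, η = (θ * m.length - (m.length - sig m)) / 3 := ⟨_, rfl⟩
  have hη0 : 0 < η := by rw [hη]; linarith
  have hd : 1 ≤ m.length := List.length_pos_iff.2 hne
  obtain ⟨e, he⟩ : ∃ e, m.length = e + 1 := ⟨m.length - 1, by omega⟩
  obtain ⟨r0, hL⟩ := hLB m hne hm η hη0
  obtain ⟨r1, hr1⟩ := exists_nat_ge (1 / η)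
  refine ⟨η, max r0 (max r1 1), hη0, fun n hn F _ _ S hS hM => ?_⟩
  have hn0 : r0 ≤ n := (le_max_left _ _).trans hn
  have hn1 : r1 ≤ n := (le_max_left _ _).trans ((le_max_right _ _).trans hn)
  have hn2 : 1 ≤ n := (le_max_right _ _).trans ((le_max_right _ _).trans hn)
  have hnη : 1 ≤ η * n := by
    have h5 : 1 / η ≤ n := hr1.trans (by exact_mod_cast hn1)
    rw [div_le_iff₀ hη0] at h5
    linarith
  have hfin : Finite (PS n F) := RSF.B.fin_ps n F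
  obtain ⟨hL1, hL2⟩ := hL n hn0 F
  have hq1 : (1 : ℝ) < Nat.card F := by exact_mod_cast Finite.one_lt_card
  obtain ⟨hc1, hc2⟩ := hH2 (PS n F) m (fun t a b => ∃ M ∈ S, ∃ g : PS n F,
      (∀ j, g⁻¹ * t j * g ∈ M) ∧ g⁻¹ * a * g ∈ M ∧ g⁻¹ * b * g ∈ M)
  constructor
  · unfold prob
    refine sm2_quot _ hq1 n m.length (sig m) θ η _ _ hη hη0 hn2 hnη ?_ hL1
    refine sm2_num (fun a b => a * b * a⁻¹ * b⁻¹) m.length e he θ η _ rfl S hS hM _ ?_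
    have h1 : Nat.card {ρ : OGroup 1 m →* PS n F // ∃ M ∈ S, InConj ρ.range M} ≤
        Nat.card {ρ : OGroup 1 m →* PS n F //
          (fun (t : Fin m.length → PS n F) (a b : PS n F) => ∃ M ∈ S, ∃ g : PS n F,
            (∀ j, g⁻¹ * t j * g ∈ M) ∧ g⁻¹ * a * g ∈ M ∧ g⁻¹ * b * g ∈ M)
            (fun j => ρ (ox 1 m j)) (ρ (oa m)) (ρ (ob m))} := by
      have hfinhom : Finite (OGroup 1 m →* PS n F) := RSF.E.finite_ohom 1 m (PS n F)
      refine Nat.card_le_card_of_injective (fun ρ => ⟨ρ.1, ?_⟩) ?_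
      · obtain ⟨M, hMS, g, hg⟩ := ρ.2
        exact ⟨M, hMS, g, fun j => hg _ ⟨_, rfl⟩, hg _ ⟨_, rfl⟩, hg _ ⟨_, rfl⟩⟩
      · intro ρ ρ' h
        simp only [Subtype.mk.injEq] at h
        exact Subtype.ext h
    refine (h1.trans (le_of_eq hc1)).trans ?_
    refine Nat.card_le_card_of_injective (fun t => ⟨t.1, ?_⟩) ?_
    · obtain ⟨_, ⟨M, hMS, hg⟩, hp⟩ := t.2
      exact ⟨M, hMS, hp, hg⟩
    · intro t t' h
      simp only [Subtype.mk.injEq] at h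
      exact Subtype.ext h
  · unfold prob
    refine sm2_quot _ hq1 n m.length (sig m) θ η _ _ hη hη0 hn2 hnη ?_ hL2
    refine sm2_num (fun a b => a ^ 2 * b ^ 2) m.length e he θ η _ rfl S hS hM _ ?_
    have h1 : Nat.card {ρ : NGroup 2 m →* PS n F // ∃ M ∈ S, InConj ρ.range M} ≤
        Nat.card {ρ : NGroup 2 m →* PS n F //
          (fun (t : Fin m.length → PS n F) (a b : PS n F) => ∃ M ∈ S, ∃ g : PS n F,
            (∀ j, g⁻¹ * t j * g ∈ M) ∧ g⁻¹ * a * g ∈ M ∧ g⁻¹ * b * g ∈ M)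
            (fun j => ρ (nx 2 m j)) (ρ (na m 0)) (ρ (na m 1))} := by
      have hfinhom : Finite (NGroup 2 m →* PS n F) := RSF.E.finite_nhom 2 m (PS n F)
      refine Nat.card_le_card_of_injective (fun ρ => ⟨ρ.1, ?_⟩) ?_
      · obtain ⟨M, hMS, g, hg⟩ := ρ.2
        exact ⟨M, hMS, g, fun j => hg _ ⟨_, rfl⟩, hg _ ⟨_, rfl⟩, hg _ ⟨_, rfl⟩⟩
      · intro ρ ρ' h
        simp only [Subtype.mk.injEq] at h
        exact Subtype.ext h
    refine (h1.trans (le_of_eq hc2)).trans ?_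
    refine Nat.card_le_card_of_injective (fun t => ⟨t.1, ?_⟩) ?_
    · obtain ⟨_, ⟨M, hMS, hg⟩, hp⟩ := t.2
      exact ⟨M, hMS, hp, hg⟩
    · intro t t' h
      simp only [Subtype.mk.injEq] at h
      exact Subtype.ext h

end FG2
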