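import Pool.Agent.FG2.MAIN
import Pool.Agent.FG2.LB
import Pool.Agent.FG2.SM2
import Pool.Agent.RSF.Fin4

/-!
# Oriented genus 1 and non-oriented genus 2, all `q`
-/

set_option autoImplicit false

open RSF

namespace FG2

open FL0 FGE

/-- the theorem for all `q` -/
def MainA : Prop :=
  ∀ m : List ℕ, (∀ k ∈ m, 2 ≤ k) → 1 < sig m → ∀ θ : ℝ,
    (m.length - sig m) < θ * m.length →
    ∃ (η : ℝ) (r : ℕ), 0 < η ∧ ∀ ε : ℝ, 0 < ε → ∃ N : ℕ, ∀ n, r ≤ n →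
    ∀ (F : Type) [Field F] [Finite F], N ≤ Nat.card (PS n F) →
    ∀ S : Set (Subgroup (PS n F)), (S.ncard : ℝ) ≤ (Nat.card F : ℝ) ^ (η * (n : ℝ) ^ 2) →
      (∀ M ∈ S, (Nat.card F : ℝ) ^ (θ * (n : ℝ) ^ 2) ≤ M.index) →
      1 - ε ≤ prob (OGroup 1 m) (PS n F)
        (fun ρ => Irr ρ.range ∧ ∀ M ∈ S, ¬ InConj ρ.range M) ∧
      1 - ε ≤ prob (NGroup 2 m) (PS n F)
        (fun ρ => Irr ρ.range ∧ ∀ M ∈ S, ¬ InConj ρ.range M)

theorem t_MainA (hG : RSF.MainG) (hAS : RSF.S_AS) (hSM : S_SM2) : MainA := by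
  intro m hm hσ θ hθ
  have hne : m ≠ [] := by
    rintro rfl
    unfold sig at hσ
    simp at hσ
    linarith
  obtain ⟨r1, H1⟩ := hG m hm hσ
  obtain ⟨η, r2, hη, H2⟩ := hSM m hne hm θ hθ
  obtain ⟨r4, hr4, H4⟩ := hAS (1 / 2) 1 (by norm_num) one_pos
  refine ⟨η, max (max r1 r2) r4, hη, fun ε hε => ?_⟩
  obtain ⟨N1, H1'⟩ := H1 (ε / 3) (by linarith)
  obtain ⟨N4, H4'⟩ := H4 (ε / 3) (by linarith)
  refine ⟨max N1 N4, fun n hn F _ _ hF S hS hM => ?_⟩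
  have hn1 : r1 ≤ n := ((le_max_left _ _).trans (le_max_left _ _)).trans hn
  have hn2 : r2 ≤ n := ((le_max_right _ _).trans (le_max_left _ _)).trans hn
  have hn4 : r4 ≤ n := (le_max_right _ _).trans hn
  obtain ⟨a1, a2⟩ := H1' n hn1 F ((le_max_left _ _).trans hF)
  obtain ⟨b1, b2⟩ := H2 n hn2 F S hS hM
  have hlim := H4' n hn4 F ((le_max_right _ _).trans hF)
  have hq : (2 : ℝ) ≤ (Nat.card F : ℝ) := by
    exact_mod_cast Finite.one_lt_card (α := F)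
  have hq0 : (0 : ℝ) < (Nat.card F : ℝ) := by linarith
  have hnr : (0 : ℝ) ≤ n := Nat.cast_nonneg _
  have e2 : (Nat.card F : ℝ) ^ (-(n : ℝ)) ≤ ε / 3 := by
    refine le_trans ?_ hlim
    rw [one_mul, Real.rpow_one]
    calc (Nat.card F : ℝ) ^ (-(n : ℝ)) ≤ (Nat.card F : ℝ) ^ (1 - 1 / 2 * (n : ℝ)) :=
          Real.rpow_le_rpow_of_exponent_le (by linarith) (by linarith)
      _ = 1 * (Nat.card F : ℝ) ^ (1 - 1 / 2 * (n : ℝ)) := (one_mul _).symm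
      _ ≤ ((n : ℝ) + 1) * (Nat.card F : ℝ) ^ (1 - 1 / 2 * (n : ℝ)) :=
          mul_le_mul_of_nonneg_right (by linarith) (by positivity)
  have hfin : Finite (PS n F) := RSF.B.fin_ps n F
  have f1 : Finite (OGroup 1 m →* PS n F) := RSF.E.finite_ohom 1 m (PS n F)
  have f2 : Finite (NGroup 2 m →* PS n F) := RSF.E.finite_nhom 2 m (PS n F)
  have key : ∀ (Γ : Type) [Group Γ] [Finite (Γ →* PS n F)],
      1 - ε / 3 ≤ prob Γ (PS n F) (fun ρ => Irr ρ.range) →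
      prob Γ (PS n F) (fun ρ => ∃ M ∈ S, InConj ρ.range M) ≤ ε / 3 →
      1 - ε ≤ prob Γ (PS n F) (fun ρ => Irr ρ.range ∧ ∀ M ∈ S, ¬ InConj ρ.range M) := by
    intro Γ _ _ h1 h2
    have h3 := main_last (Γ := Γ) (fun ρ => Irr ρ.range) S (fun ρ M => InConj ρ.range M) False
      (fun _ => False) ε hε.le h1 h2 (fun h => h.elim)
    have h4 : (fun ρ : Γ →* PS n F => Irr ρ.range ∧ (∀ M ∈ S, ¬ InConj ρ.range M) ∧
        (False → ¬ False)) = fun ρ => Irr ρ.range ∧ ∀ M ∈ S, ¬ InConj ρ.range M := by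
      funext ρ
      simp
    rw [h4] at h3
    exact h3
  exact ⟨key _ a1 (b1.trans e2), key _ a2 (b2.trans e2)⟩

theorem b_LB : S_LB := t_LB f_HO f_HN f_LG t_ST f_PI f_PJ
theorem b_SM2 : S_SM2 := t_SM2 t_H2 b_LB
theorem b_MainA : MainA := t_MainA f_MainG t_AS b_SM2

end FG2
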