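import Mathlib
import Pool.Agent.FG2.StF
import Pool.Agent.FGE.PRNX
import Pool.Agent.RSF.B
import Pool.Agent.RSF.E

/-!
# Module `PR2`: the union bound over structures, oriented genus 1 and non-oriented genus 2
-/

set_option autoImplicit false

open RSF

namespace FG2

open FL0 FGE

/-- the number of the tuples for one structure -/
theorem pr2_tup {G : Type} [Group G] [Finite G] (w : G → G → G) {d : ℕ} (i : Fin d)
    (P : Fin d → G → Prop) (R : G → Prop) :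
    Nat.card {t : (Fin d → G) × G × G // (∀ j, P j (t.1 j)) ∧ (R t.2.1 ∧ R t.2.2) ∧
        (List.ofFn t.1).prod * w t.2.1 t.2.2 = 1} ≤
      (∏ j ∈ Finset.univ.erase i, Nat.card {g : G // P j g}) *
        (Nat.card {g : G // R g} * Nat.card {g : G // R g}) := by
  classical
  have h1 : Nat.card {t : (Fin d → G) × G × G // (∀ j, P j (t.1 j)) ∧ (R t.2.1 ∧ R t.2.2) ∧
        (List.ofFn t.1).prod * w t.2.1 t.2.2 = 1} ≤
      Nat.card (((j : {j : Fin d // j ≠ i}) → {g : G // P j.1 g}) ×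
        ({g : G // R g} × {g : G // R g})) := by
    refine Nat.card_le_card_of_injective
      (fun t => (fun j => ⟨t.1.1 j.1, t.2.1 j.1⟩, ⟨t.1.2.1, t.2.2.1.1⟩, ⟨t.1.2.2, t.2.2.1.2⟩)) ?_
    intro t t' h
    simp only [Prod.mk.injEq] at h
    obtain ⟨h2, h3, h3'⟩ := h
    have h4 : t.1.2.1 = t'.1.2.1 := congrArg Subtype.val h3
    have h4' : t.1.2.2 = t'.1.2.2 := congrArg Subtype.val h3'
    have h5 : ∀ j, j ≠ i → t.1.1 j = t'.1.1 j := fun j hj =>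
      congrArg Subtype.val (congrFun h2 ⟨j, hj⟩)
    have h6 : (List.ofFn t.1.1).prod = (List.ofFn t'.1.1).prod := by
      have h7 := t.2.2.2
      have h8 := t'.2.2.2
      rw [h4, h4'] at h7
      exact mul_right_cancel (h7.trans h8.symm)
    apply Subtype.ext
    refine Prod.ext ?_ (Prod.ext h4 h4')
    funext j
    by_cases hj : j = i
    · subst hj
      exact prn_det d _ _ _ h5 h6
    · exact h5 j hj
  refine h1.trans (le_of_eq ?_)
  rw [Nat.card_prod, Nat.card_prod, Nat.card_pi]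
  congr 1
  exact (Finset.prod_subtype (Finset.univ.erase i) (fun j => by simp)
    (fun j => Nat.card {g : G // P j g})).symm

/-- the number of the homomorphisms with a structure -/
theorem pr2_num {n : ℕ} {F : Type} [Field F] [Finite F] (hn : 1 ≤ n) (hR : S_ROT)
    (w : PS n F → PS n F → PS n F) (m : List ℕ) (hm : ∀ k ∈ m, 2 ≤ k) (i : Fin m.length)
    (hF : ∀ k ∈ m, Ord n F k) (C μ : ℝ) (I : Type) [Finite I]
    (Q : I → Matrix (Fin n) (Fin n) F → Prop)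
    (hQ : ∀ T M (c : F), c ≠ 0 → Q T M → Q T (c • M))
    (hI : (Nat.card I : ℝ) ≤ Bd C n F ((1 - μ) * (n : ℝ) ^ 2))
    (hy : ∀ T, ∀ k ∈ m, (Nat.card {y : GL (Fin n) F // y ^ k = 1 ∧ Q T y.1} : ℝ) ≤
        Bd C n F (μ * (1 - 1 / (k : ℝ)) * (n : ℝ) ^ 2))
    (ha : ∀ T, (Nat.card {y : GL (Fin n) F // Q T y.1} : ℝ) ≤ Bd C n F (μ * (n : ℝ) ^ 2))
    (X : Type)
    (hX : Nat.card X ≤ Nat.card {t : (Fin m.length → PS n F) × PS n F × PS n F // ∃ T,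
          (∀ j, t.1 j ^ m.get j = 1 ∧ prn_A (Q T) (t.1 j)) ∧
            (prn_A (Q T) t.2.1 ∧ prn_A (Q T) t.2.2) ∧
            (List.ofFn t.1).prod * w t.2.1 t.2.2 = 1}) :
    (Nat.card X : ℝ) ≤ Bd (C + ((Finset.univ.erase i).card * C + (C + C))) n F
      ((1 - μ) * (n : ℝ) ^ 2 + (μ * (sig m - (1 - 1 / (m.get i : ℝ))) * (n : ℝ) ^ 2 +
        (μ * (n : ℝ) ^ 2 + μ * (n : ℝ) ^ 2))) := by
  classical
  have hfin : Finite (PS n F) := RSF.B.fin_ps n F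
  have hpos : ∀ (D e : ℝ), 0 ≤ Bd D n F e := fun D e => prn_bd_pos D n F e
  have hone : ∀ T : I, (Nat.card {t : (Fin m.length → PS n F) × PS n F × PS n F //
      (∀ j, t.1 j ^ m.get j = 1 ∧ prn_A (Q T) (t.1 j)) ∧
        (prn_A (Q T) t.2.1 ∧ prn_A (Q T) t.2.2) ∧
        (List.ofFn t.1).prod * w t.2.1 t.2.2 = 1} : ℝ) ≤
      (∏ j ∈ Finset.univ.erase i, Bd C n F (μ * (1 - 1 / (m.get j : ℝ)) * (n : ℝ) ^ 2)) *
        (Bd C n F (μ * (n : ℝ) ^ 2) * Bd C n F (μ * (n : ℝ) ^ 2)) := by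
    intro T
    have h1 := pr2_tup (G := PS n F) w i (fun j g => g ^ m.get j = 1 ∧ prn_A (Q T) g)
      (prn_A (Q T))
    have h2 : (Nat.card {t : (Fin m.length → PS n F) × PS n F × PS n F //
        (∀ j, t.1 j ^ m.get j = 1 ∧ prn_A (Q T) (t.1 j)) ∧
          (prn_A (Q T) t.2.1 ∧ prn_A (Q T) t.2.2) ∧
          (List.ofFn t.1).prod * w t.2.1 t.2.2 = 1} : ℝ) ≤
        (∏ j ∈ Finset.univ.erase i,
          (Nat.card {g : PS n F // g ^ m.get j = 1 ∧ prn_A (Q T) g} : ℝ)) *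
          ((Nat.card {g : PS n F // prn_A (Q T) g} : ℝ) *
            (Nat.card {g : PS n F // prn_A (Q T) g} : ℝ)) := by
      exact_mod_cast h1
    refine h2.trans ?_
    have h5 : (Nat.card {g : PS n F // prn_A (Q T) g} : ℝ) ≤ Bd C n F (μ * (n : ℝ) ^ 2) := by
      have h3 := prn_el2 (n := n) (F := F) (Q T)
      have h4 : (Nat.card {g : PS n F // prn_A (Q T) g} : ℝ) ≤
          Nat.card {y : GL (Fin n) F // Q T y.1} := by exact_mod_cast h3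
      exact h4.trans (ha T)
    refine mul_le_mul ?_ (mul_le_mul h5 h5 (Nat.cast_nonneg _) (hpos _ _))
      (mul_nonneg (Nat.cast_nonneg _) (Nat.cast_nonneg _))
      (Finset.prod_nonneg fun j _ => hpos _ _)
    refine Finset.prod_le_prod (fun j _ => Nat.cast_nonneg _) fun j _ => ?_
    have hmj := List.get_mem m j
    have h3 := prn_el hn hR (m.get j) (le_trans (by norm_num) (hm _ hmj)) (hF _ hmj) (Q T)
      (hQ T)
    have h4 : (Nat.card {g : PS n F // g ^ m.get j = 1 ∧ prn_A (Q T) g} : ℝ) ≤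
        Nat.card {y : GL (Fin n) F // y ^ m.get j = 1 ∧ Q T y.1} := by exact_mod_cast h3
    exact h4.trans (hy T _ hmj)
  have h3 := prn_un (I := I) (T := (Fin m.length → PS n F) × PS n F × PS n F)
    (fun T t => (∀ j, t.1 j ^ m.get j = 1 ∧ prn_A (Q T) (t.1 j)) ∧
          (prn_A (Q T) t.2.1 ∧ prn_A (Q T) t.2.2) ∧
          (List.ofFn t.1).prod * w t.2.1 t.2.2 = 1) _ hone
  have hsum : ∑ j ∈ Finset.univ.erase i, μ * (1 - 1 / (m.get j : ℝ)) * (n : ℝ) ^ 2 =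
      μ * (sig m - (1 - 1 / (m.get i : ℝ))) * (n : ℝ) ^ 2 := by
    rw [← Finset.sum_mul, ← Finset.mul_sum, prn_sum]
  have hnum : (Nat.card X : ℝ) ≤ Nat.card I * ((∏ j ∈ Finset.univ.erase i,
        Bd C n F (μ * (1 - 1 / (m.get j : ℝ)) * (n : ℝ) ^ 2)) *
        (Bd C n F (μ * (n : ℝ) ^ 2) * Bd C n F (μ * (n : ℝ) ^ 2))) :=
    le_trans (by exact_mod_cast hX) h3
  rw [prn_bd_prod, hsum, prn_bd_mul C C, prn_bd_mul] at hnum
  refine hnum.trans ?_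
  refine (mul_le_mul_of_nonneg_right hI (hpos _ _)).trans (le_of_eq ?_)
  rw [prn_bd_mul]

/-- the quotient -/
theorem pr2_quot {n : ℕ} {F : Type} [Field F] [Finite F] (K s x μ κ A B c₀ : ℝ)
    (hx : 0 ≤ x) (hκ : κ = (s - x) / 4) (hc : c₀ = (s - x) / 4) (hs : x < s) (hμ0 : 0 ≤ μ)
    (hμ1 : μ ≤ 1 / 2)
    (habs : ∀ e : ℝ, e ≤ -(c₀ * (n : ℝ) ^ 2) →
      Bd K n F (e + 0) ≤ (Nat.card F : ℝ) ^ (-(2 * (n : ℝ))))
    (hA : A ≤ Bd K n F ((1 - μ) * (n : ℝ) ^ 2 + (μ * (s - (1 - x)) * (n : ℝ) ^ 2 +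
        (μ * (n : ℝ) ^ 2 + μ * (n : ℝ) ^ 2))))
    (hB : (Nat.card F : ℝ) ^ ((1 + s - κ) * (n : ℝ) ^ 2) ≤ B) :
    A / B ≤ (Nat.card F : ℝ) ^ (-(2 * (n : ℝ))) := by
  have hq1 : (1 : ℝ) < Nat.card F := by exact_mod_cast (Finite.one_lt_card : 1 < Nat.card F)
  have hq0 : (0 : ℝ) < Nat.card F := by linarith
  refine (div_le_div₀ (prn_bd_pos _ _ _ _) hA (Real.rpow_pos_of_pos hq0 _) hB).trans ?_
  have hdiv : Bd K n F ((1 - μ) * (n : ℝ) ^ 2 + (μ * (s - (1 - x)) * (n : ℝ) ^ 2 +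
        (μ * (n : ℝ) ^ 2 + μ * (n : ℝ) ^ 2))) /
      (Nat.card F : ℝ) ^ ((1 + s - κ) * (n : ℝ) ^ 2) =
      Bd K n F ((κ - (1 - μ) * s + μ * x) * (n : ℝ) ^ 2 + 0) := by
    unfold Bd
    rw [mul_div_assoc, ← Real.rpow_sub hq0]
    congr 2
    ring
  rw [hdiv]
  refine habs _ ?_
  have hN : 0 ≤ (n : ℝ) ^ 2 := by positivity
  have h1 : κ - (1 - μ) * s + μ * x ≤ -c₀ := by
    rw [hκ, hc]
    nlinarith
  calc (κ - (1 - μ) * s + μ * x) * (n : ℝ) ^ 2 ≤ -c₀ * (n : ℝ) ^ 2 :=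
        mul_le_mul_of_nonneg_right h1 hN
    _ = -(c₀ * (n : ℝ) ^ 2) := by ring

theorem t_PR2 : M_PR2 := by
  classical
  intro hH2 hR hLB m hm hex C hC
  obtain ⟨k0, hk0, hk1⟩ := hex
  have hne : m ≠ [] := List.ne_nil_of_mem hk0
  obtain ⟨i, hi⟩ := List.mem_iff_get.1 hk0
  obtain ⟨c₀, hc₀⟩ : ∃ c₀ : ℝ, c₀ = (sig m - 1 / (k0 : ℝ)) / 4 := ⟨_, rfl⟩
  have hc : 0 < c₀ := by rw [hc₀]; linarith
  obtain ⟨r0, hL⟩ := hLB m hne hm c₀ hc
  obtain ⟨K, hK⟩ : ∃ K : ℝ, K = C + ((Finset.univ.erase i).card * C + (C + C)) := ⟨_, rfl⟩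
  have hK0 : 0 ≤ K := by rw [hK]; positivity
  obtain ⟨r1, hr1⟩ := prn_abs K 0 c₀ hK0 le_rfl hc
  refine ⟨max r0 (max r1 1), fun n hn F _ _ hF1 hF2 I _ Q μ hμ0 hμ1 hQ hI hy ha => ?_⟩
  have hn0 : r0 ≤ n := (le_max_left _ _).trans hn
  have hn1 : r1 ≤ n := (le_max_left _ _).trans ((le_max_right _ _).trans hn)
  have hn2 : 1 ≤ n := (le_max_right _ _).trans ((le_max_right _ _).trans hn)
  have hfin : Finite (PS n F) := RSF.B.fin_ps n F
  obtain ⟨hL1, hL2⟩ := hL n hn0 F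
  have hx : 0 ≤ 1 / (k0 : ℝ) := by positivity
  have habs := hr1 n hn1 F
  obtain ⟨hc1, hc2⟩ := hH2 (PS n F) m (fun t a b => ∃ T, (∀ j, prn_A (Q T) (t j)) ∧
    (prn_A (Q T) a ∧ prn_A (Q T) b))
  constructor
  · unfold prob
    refine pr2_quot K (sig m) (1 / (k0 : ℝ)) μ c₀ _ _ c₀ hx hc₀ hc₀ hk1 hμ0 hμ1 habs ?_ hL1
    have h0 := pr2_num hn2 hR (fun a b => a * b * a⁻¹ * b⁻¹) m hm i hF2 C μ I Q hQ hI hy ha
      {ρ : OGroup 1 m →* PS n F // ∃ T, All ρ.range (Q T)} (by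
      have h1 : Nat.card {ρ : OGroup 1 m →* PS n F // ∃ T, All ρ.range (Q T)} ≤
          Nat.card {ρ : OGroup 1 m →* PS n F //
            (fun (t : Fin m.length → PS n F) (a b : PS n F) => ∃ T, (∀ j, prn_A (Q T) (t j)) ∧
              (prn_A (Q T) a ∧ prn_A (Q T) b))
              (fun j => ρ (ox 1 m j)) (ρ (oa m)) (ρ (ob m))} := by
        have hfinhom : Finite (OGroup 1 m →* PS n F) := RSF.E.finite_ohom 1 m (PS n F)
        refine Nat.card_le_card_of_injective (fun ρ => ⟨ρ.1, ?_⟩) ?_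
        · obtain ⟨T, hT⟩ := ρ.2
          exact ⟨T, fun j => hT _ ⟨_, rfl⟩, hT _ ⟨_, rfl⟩, hT _ ⟨_, rfl⟩⟩
        · intro ρ ρ' h
          simp only [Subtype.mk.injEq] at h
          exact Subtype.ext h
      refine (h1.trans (le_of_eq hc1)).trans ?_
      refine Nat.card_le_card_of_injective (fun t => ⟨t.1, ?_⟩) ?_
      · obtain ⟨h3, ⟨T, h4, h5⟩, h6⟩ := t.2
        exact ⟨T, fun j => ⟨h3 j, h4 j⟩, h5, h6⟩
      · intro t t' h
        simp only [Subtype.mk.injEq] at h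
        exact Subtype.ext h)
    rw [← hK, hi] at h0
    exact h0
  · unfold prob
    refine pr2_quot K (sig m) (1 / (k0 : ℝ)) μ c₀ _ _ c₀ hx hc₀ hc₀ hk1 hμ0 hμ1 habs ?_ hL2
    have h0 := pr2_num hn2 hR (fun a b => a ^ 2 * b ^ 2) m hm i hF2 C μ I Q hQ hI hy ha
      {ρ : NGroup 2 m →* PS n F // ∃ T, All ρ.range (Q T)} (by
      have h1 : Nat.card {ρ : NGroup 2 m →* PS n F // ∃ T, All ρ.range (Q T)} ≤
          Nat.card {ρ : NGroup 2 m →* PS n F //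
            (fun (t : Fin m.length → PS n F) (a b : PS n F) => ∃ T, (∀ j, prn_A (Q T) (t j)) ∧
              (prn_A (Q T) a ∧ prn_A (Q T) b))
              (fun j => ρ (nx 2 m j)) (ρ (na m 0)) (ρ (na m 1))} := by
        have hfinhom : Finite (NGroup 2 m →* PS n F) := RSF.E.finite_nhom 2 m (PS n F)
        refine Nat.card_le_card_of_injective (fun ρ => ⟨ρ.1, ?_⟩) ?_
        · obtain ⟨T, hT⟩ := ρ.2
          exact ⟨T, fun j => hT _ ⟨_, rfl⟩, hT _ ⟨_, rfl⟩, hT _ ⟨_, rfl⟩⟩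
        · intro ρ ρ' h
          simp only [Subtype.mk.injEq] at h
          exact Subtype.ext h
      refine (h1.trans (le_of_eq hc2)).trans ?_
      refine Nat.card_le_card_of_injective (fun t => ⟨t.1, ?_⟩) ?_
      · obtain ⟨h3, ⟨T, h4, h5⟩, h6⟩ := t.2
        exact ⟨T, fun j => ⟨h3 j, h4 j⟩, h5, h6⟩
      · intro t t' h
        simp only [Subtype.mk.injEq] at h
        exact Subtype.ext h)
    rw [← hK, hi] at h0
    exact h0

end FG2
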