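import Pool.Agent.FGE.All
import Pool.Agent.RSF.Fin4
import Pool.Agent.FG2.MainA
import Pool.Agent.FG2.PR2
import Pool.Agent.FG2.GE2
import Pool.Agent.FG2.MAIN

/-!
# Oriented genus 1 and non-oriented genus 2: assembly
-/

namespace FG2

open RSF FL0 FGE

theorem a_LB : S_LB := b_LB
theorem a_SM2 : S_SM2 := b_SM2
theorem a_PR2 : S_PR2 := t_PR2 t_H2 t_ROT a_LB
theorem a_GE2 : S_GE2 := t_GE2 a_PR2 t_C2R a_C2N a_C2Y t_C2S t_C3R a_C3N a_C3Y a_C3S a_C4N a_C4Y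
  t_C4S a_C5N a_C5Y t_C5S t_C8R t_C8N a_C8Y a_C8S
theorem a_Main : Main := t_Main f_MainG t_AS a_SM2 a_GE2

end FG2
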